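import Pool.Agent.Helper70.BN.St2

set_option autoImplicit false

namespace Pool.Agent.Helper71.BN

open Pool.Agent.Helper70.BN Pool.Agent.Helper75.MX Pool.Agent.Helper70.ML

theorem hBBRD (hBAVG : StBAVG) : StBBRD := by
  intro G _ _ B gs w hw f hf
  obtain ⟨-, h2, h3, h4, h5, h6, -⟩ := hBAVG G B
  have hz : avg B (0 : G → ℝ) = 0 := by
    have := h4 0 (0 : G → ℝ)
    simpa using this
  have hsum : ∀ (s : Finset B) (F : B → (G → ℝ)), avg B (∑ b ∈ s, F b) = ∑ b ∈ s, avg B (F b) := by
    classical
    intro s F
    induction s using Finset.induction_on with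
    | empty => simpa using hz
    | insert a s ha ih => rw [Finset.sum_insert ha, Finset.sum_insert ha, h3, ih]
  have hcard : (Nat.card B : ℝ) ≠ 0 := by
    have : 0 < Nat.card B := Nat.card_pos
    positivity
  have claim : ∀ (gs : List G) (y : G), (∀ x, PB B gs x → DC B w (y * x)) →
      avg B (L y (tt B gs f)) = avg B (L w f) := by
    intro gs
    induction gs with
    | nil =>
      intro y hy
      obtain ⟨b1, hb1, b2, hb2, e⟩ := hy 1 (show (1 : G) ∈ B from B.one_mem)
      rw [mul_one] at e
      have e2 : L y (tt B [] f) = L b1 (L w f) := by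
        change L y f = _
        rw [e, Helper75.MX.L_mul, Helper75.MX.L_mul, mem_stab.1 (hf hb2)]
      rw [e2, h5 b1 hb1]
    | cons g gs ih =>
      intro y hy
      have : Fintype B := Fintype.ofFinite B
      have e1 : tt B (g :: gs) f = avg B (L g (tt B gs f)) := rfl
      rw [e1, h6, h4, finsum_eq_sum_of_fintype, hsum]
      have e2 : ∀ b : B, avg B (L (y * (b : G)) (L g (tt B gs f))) = avg B (L w f) := by
        intro b
        rw [← Helper75.MX.L_mul]
        apply ih
        intro x hx
        have := hy ((b : G) * g * x) ⟨b, b.2, x, hx, rfl⟩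
        rwa [show y * ((b : G) * g * x) = y * (b : G) * g * x by group] at this
      rw [Finset.sum_congr rfl (fun b _ => e2 b), Finset.sum_const, Finset.card_univ, ← Nat.card_eq_fintype_card,
        ← Nat.cast_smul_eq_nsmul ℝ, smul_smul, one_div, inv_mul_cancel₀ hcard, one_smul]
  cases gs with
  | nil =>
    have := claim [] 1 (fun x hx => by rw [one_mul]; exact hw x hx)
    rw [L_one] at this
    rw [← this]
    exact (h2 f hf).symm
  | cons g gs =>
    exact claim gs g (fun x hx => hw _ ⟨1, B.one_mem, x, hx, by rw [one_mul]⟩)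

end Pool.Agent.Helper71.BN
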