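import Pool.Agent.Helper70.BN.St3

set_option autoImplicit false

namespace Pool.Agent.Helper71.BN

open Pool.Agent.Helper70.BN Pool.Agent.Helper75.MX

theorem nw_append {Q : Type} [Group Q] {l : ℕ} (n : Fin l → Q) (u v : List (Fin l)) :
    nw n (u ++ v) = nw n u * nw n v := by
  simp [nw]

theorem nw_cons {Q : Type} [Group Q] {l : ℕ} (n : Fin l → Q) (i : Fin l) (v : List (Fin l)) :
    nw n (i :: v) = n i * nw n v := by
  simp [nw]

theorem nw_memN {Q : Type} [Group Q] {l : ℕ} {B N : Subgroup Q} {n : Fin l → Q} {q : Fin l → ℕ}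
    (h : BNpair B N n q) (u : List (Fin l)) : nw n u ∈ N := by
  induction u with
  | nil => simp [nw]
  | cons i u ih => rw [nw_cons]; exact N.mul_mem (h.mem i) ih

theorem rev_mem {Q : Type} [Group Q] {l : ℕ} {B N : Subgroup Q} {n : Fin l → Q} {q : Fin l → ℕ}
    (h : BNpair B N n q) (v : List (Fin l)) : ∀ y ∈ N, ((nw n v)⁻¹ * y ∈ B ↔ nw n v.reverse * y ∈ B) := by
  induction v with
  | nil => intro y _; simp [nw]
  | cons i v ih =>
    intro y hy
    have e1 : (nw n (i :: v))⁻¹ * y = (nw n v)⁻¹ * ((n i)⁻¹ * y) := by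
      rw [nw_cons]; group
    have hi := h.mem i
    have e2 : nw n (i :: v).reverse * y = nw n v.reverse * (n i * y) := by
      rw [List.reverse_cons, nw_append, mul_assoc]
      simp [nw]
    rw [e1, ih _ (N.mul_mem (N.inv_mem hi) hy), e2]
    have hy' : n i * y ∈ N := N.mul_mem hi hy
    have ht : (n i * y)⁻¹ * (n i * n i)⁻¹ * (n i * y)⁻¹⁻¹ ∈ B :=
      h.norm _ (N.inv_mem hy') _ (B.inv_mem (h.sq i)) (N.inv_mem (N.mul_mem hi hi))
    have e3 : nw n v.reverse * ((n i)⁻¹ * y) =
        nw n v.reverse * (n i * y) * ((n i * y)⁻¹ * (n i * n i)⁻¹ * (n i * y)⁻¹⁻¹) := by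
      group
    rw [e3, B.mul_mem_cancel_right ht]

theorem hNCRY (hRRED : StRRED) (hRTWO : StRTWO) : StNCRY := by
  intro Q _ l B N n q hBN A d Φ hRS hw
  have key : ∀ v u : List (Fin l), (nw n v)⁻¹ * nw n u ∈ B ↔ ∀ x, wa A v x = wa A u x := by
    intro v u
    rw [rev_mem hBN v _ (nw_memN hBN u), ← nw_append]
    have := hw (v.reverse ++ u)
    rw [show nw n (v.reverse ++ u) = ((v.reverse ++ u).map n).prod from rfl, this]
    constructor
    · intro h1 x
      have h2 := h1 x
      rw [wa_append] at h2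
      have h3 := wa_reverse hRS.diag v (wa A u x)
      rw [h2] at h3
      exact h3
    · intro h1 x
      rw [wa_append, ← h1 x, reverse_wa hRS.diag]
  obtain ⟨-, r2, -, r4, -⟩ := hRRED l A d Φ hRS
  refine ⟨?_, ?_, ?_⟩
  · intro u hu v hv
    obtain ⟨v', h1, h2, h3⟩ := r2 v
    have h4 := (r4 v' u h1 hu (fun x => by rw [h2, (key v u).1 hv x])).2
    omega
  · intro i j hij
    have ha := al_nonneg (l := l) i
    have hb := al_nonneg (l := l) j
    have hab : (0 : Fin l → ℤ) ≤ al i + al j := add_nonneg ha hb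
    have h2a : (0 : Fin l → ℤ) ≤ (2 : ℤ) • al i := by
      rw [two_smul]; exact add_nonneg ha ha
    have h2b : (0 : Fin l → ℤ) ≤ (2 : ℤ) • al j := by
      rw [two_smul]; exact add_nonneg hb hb
    obtain ⟨-, h | h | h | h⟩ := hRTWO l A d Φ hRS i j hij
    · obtain ⟨-, -, hm, hl, -⟩ := h
      rw [hm]
      intro β hβ
      rw [hl] at hβ
      simp only [List.mem_cons, List.not_mem_nil, or_false] at hβ
      rcases hβ with rfl | rfl
      · exact ha
      · exact hb
    · obtain ⟨-, -, hm, hl, -⟩ := h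
      rw [hm]
      intro β hβ
      rw [hl] at hβ
      simp only [List.mem_cons, List.not_mem_nil, or_false] at hβ
      rcases hβ with rfl | rfl | rfl
      · exact ha
      · exact hab
      · exact hb
    · obtain ⟨-, -, hm, hl, -⟩ := h
      rw [hm]
      intro β hβ
      rw [hl] at hβ
      simp only [List.mem_cons, List.not_mem_nil, or_false] at hβ
      rcases hβ with rfl | rfl | rfl | rfl
      · exact ha
      · exact add_nonneg h2a hb
      · exact hab
      · exact hb
    · obtain ⟨-, -, hm, hl, -⟩ := h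
      rw [hm]
      intro β hβ
      rw [hl] at hβ
      simp only [List.mem_cons, List.not_mem_nil, or_false] at hβ
      rcases hβ with rfl | rfl | rfl | rfl
      · exact ha
      · exact hab
      · exact add_nonneg ha h2b
      · exact hb
  · intro i j hij
    exact (key _ _).2 (hRTWO l A d Φ hRS i j hij).1

end Pool.Agent.Helper71.BN
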